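import Pool.Agent.W989.TN.Stm

set_option autoImplicit false

namespace Pool.Agent.W324.TN.Num

open Pool.Agent.W989.TN

lemma ev (c : ℝ) (hc : 0 < c) : ∃ N₀ : ℕ, ∀ N : ℕ, N₀ ≤ N →
    10 ≤ Real.log (Real.log N) ∧
      3 * Real.log (Real.log N) ^ 4 ≤ c * Real.exp (Real.log (Real.log N)) := by
  have h1 : Filter.Tendsto (fun N : ℕ => Real.log (Real.log (N : ℝ))) Filter.atTop Filter.atTop :=
    Real.tendsto_log_atTop.comp (Real.tendsto_log_atTop.comp tendsto_natCast_atTop_atTop)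
  have h2 : ∀ᶠ y : ℝ in Filter.atTop, 3 / c ≤ Real.exp y / y ^ 4 :=
    (Real.tendsto_exp_div_pow_atTop 4).eventually_ge_atTop (3 / c)
  have h3 : ∀ᶠ y : ℝ in Filter.atTop, 10 ≤ y ∧ 3 * y ^ 4 ≤ c * Real.exp y := by
    filter_upwards [h2, Filter.eventually_ge_atTop (10 : ℝ)] with y hy hy10
    refine ⟨hy10, ?_⟩
    have hy4 : 0 < y ^ 4 := by positivity
    rw [div_le_div_iff₀ hc hy4] at hy
    linarith
  exact Filter.eventually_atTop.1 (h1.eventually h3)

theorem main : NUM := by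
  intro δ hδ hδ1
  -- the constants
  have hlogb : 1 ≤ Real.logb 2 (4 / (δ / 4)) := by
    have : Real.logb 2 2 ≤ Real.logb 2 (4 / (δ / 4)) := by
      apply Real.logb_le_logb_of_le (by norm_num) (by norm_num)
      rw [le_div_iff₀ (by positivity)]
      linarith
    rwa [Real.logb_self_eq_one (by norm_num)] at this
  set A : ℝ := (δ / 4) ^ 2 / (2 ^ 20 * Real.logb 2 (4 / (δ / 4)) ^ 2) with hA
  have hden : (1 : ℝ) ≤ 2 ^ 20 * Real.logb 2 (4 / (δ / 4)) ^ 2 := by
    have : (1 : ℝ) ≤ Real.logb 2 (4 / (δ / 4)) ^ 2 := one_le_pow₀ hlogb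
    nlinarith
  have hA0 : 0 < A := by
    rw [hA]; apply div_pos (by positivity) (by linarith)
  have hA1 : A ≤ 1 := by
    rw [hA, div_le_one (by linarith)]
    have : (δ / 4) ^ 2 ≤ 1 := by nlinarith
    linarith
  have hgam : ∀ ℓ : ℝ, gam (δ / 4) ℓ = A / ℓ ^ 3 := by
    intro ℓ
    rw [gam, hA, div_div]
  refine ⟨A / 128, by positivity, ?_⟩
  obtain ⟨N₀, hN₀⟩ := ev (A / 128) (by positivity)
  refine ⟨max N₀ 1, ?_⟩
  intro N z P hN hz2 hz hP1 hP2
  obtain ⟨hY10, hYc⟩ := hN₀ N (le_trans (le_max_left _ _) hN)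
  have hN1 : 1 ≤ N := le_trans (le_max_right _ _) hN
  have hN1r : (1 : ℝ) ≤ N := by exact_mod_cast hN1
  have hN0r : (0 : ℝ) < N := by linarith
  set X : ℝ := Real.log N with hX
  set Y : ℝ := Real.log X with hY
  have hX0' : 0 ≤ X := Real.log_nonneg hN1r
  have hX0 : 0 < X := by
    rcases hX0'.lt_or_eq with h | h
    · exact h
    · exfalso
      rw [hY, ← h, Real.log_zero] at hY10
      linarith
  have hXY : X = Real.exp Y := by rw [hY, Real.exp_log hX0]
  have hX61 : 61 ≤ X := by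
    have := Real.quadratic_le_exp_of_nonneg (x := Y) (by linarith)
    rw [hXY]; nlinarith
  have hYX : Y ≤ X := by
    have := Real.add_one_le_exp Y
    rw [← hXY] at this; linarith
  have hNX : (N : ℝ) = Real.exp X := by rw [hX, Real.exp_log hN0r]
  have h8 : 8 * X ≤ N := by
    have := Real.quadratic_le_exp_of_nonneg (x := X) (by linarith)
    rw [hNX]; nlinarith
  have hl2a := Real.log_two_gt_d9
  have hl2b := Real.log_two_lt_d9
  have hl2 : 0 < Real.log 2 := by linarith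
  -- bound of clog
  have hcl : ((Nat.clog 2 (2 * N) : ℕ) : ℝ) * Real.log 2 ≤ X + 2 * Real.log 2 := by
    have h1 : 2 ^ (Nat.clog 2 (2 * N)).pred < 2 * N :=
      Nat.pow_pred_clog_lt_self (by norm_num) (by omega)
    have h2 : ((2 : ℝ)) ^ (Nat.clog 2 (2 * N)).pred ≤ 2 * N := by exact_mod_cast h1.le
    have h3 := Real.log_le_log (by positivity) h2
    rw [Real.log_pow, Real.log_mul (by norm_num) hN0r.ne'] at h3
    have h4 : ((Nat.clog 2 (2 * N) : ℕ) : ℝ) ≤ ((Nat.clog 2 (2 * N)).pred : ℕ) + 1 := by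
      have : Nat.clog 2 (2 * N) ≤ (Nat.clog 2 (2 * N)).pred + 1 := by
        rw [Nat.pred_eq_sub_one]; omega
      exact_mod_cast this
    nlinarith
  have hzr : (z : ℝ) ≤ 2 * ((Nat.clog 2 (2 * N) : ℕ) : ℝ) := by exact_mod_cast hz
  have hz4 : (z : ℝ) ≤ 4 * X := by
    have h1 : (z : ℝ) * Real.log 2 ≤ 4 * X * Real.log 2 := by nlinarith
    exact le_of_mul_le_mul_right h1 hl2
  have hz2r : (2 : ℝ) ≤ z := by exact_mod_cast hz2
  have hz0 : (0 : ℝ) < z := by linarith
  set ℓ : ℝ := Real.logb 2 z with hℓ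
  have hℓ1 : 1 ≤ ℓ := by
    have : Real.logb 2 2 ≤ Real.logb 2 z :=
      Real.logb_le_logb_of_le (by norm_num) (by norm_num) hz2r
    rwa [Real.logb_self_eq_one (by norm_num)] at this
  have hℓ4 : ℓ ≤ 4 * Y := by
    have h1 : Real.log z ≤ Real.log (4 * X) := Real.log_le_log hz0 hz4
    rw [Real.log_mul (by norm_num) hX0.ne', ← hY] at h1
    have h2 : Real.log 4 = 2 * Real.log 2 := by
      rw [show (4 : ℝ) = 2 ^ 2 by norm_num, Real.log_pow]; norm_num
    have h3 : ℓ * Real.log 2 = Real.log z := by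
      rw [hℓ, Real.logb, div_mul_cancel₀ _ hl2.ne']
    have h4 : ℓ * Real.log 2 ≤ 4 * Y * Real.log 2 := by
      rw [h3]; nlinarith
    exact le_of_mul_le_mul_right h4 hl2
  have hY0 : 0 < Y := by linarith
  -- P
  have hPr : (P : ℝ) ≤ 2 * N * z := by exact_mod_cast hP2
  have hP0 : (0 : ℝ) ≤ P := Nat.cast_nonneg P
  have hPpos : (0 : ℝ) < P := by
    have : (2 * N : ℝ) ≤ P := by exact_mod_cast hP1
    linarith
  constructor
  · rw [← Real.rpow_add hPpos]
    have hPN : (P : ℝ) ≤ (N : ℝ) ^ (2 : ℝ) := by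
      rw [Real.rpow_two]
      nlinarith
    calc (P : ℝ) ^ (δ / 4 + δ / 4) ≤ ((N : ℝ) ^ (2 : ℝ)) ^ (δ / 4 + δ / 4) :=
          Real.rpow_le_rpow hP0 hPN (by positivity)
      _ = (N : ℝ) ^ δ := by
          rw [← Real.rpow_mul hN0r.le]
          congr 1; ring
  · rw [hgam ℓ]
    set g : ℝ := A / ℓ ^ 3 with hg
    have hℓ3 : 1 ≤ ℓ ^ 3 := one_le_pow₀ hℓ1
    have hg0 : 0 ≤ g := by rw [hg]; positivity
    have hg1 : g ≤ 1 := by
      rw [hg, div_le_one (by linarith)]; linarith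
    have hgc : 2 * (A / 128) / Y ^ 3 ≤ g := by
      rw [hg]
      have h1 : ℓ ^ 3 ≤ (4 * Y) ^ 3 := pow_le_pow_left₀ (by linarith) hℓ4 3
      have h2 : 2 * (A / 128) / Y ^ 3 = A / (4 * Y) ^ 3 := by
        field_simp; ring
      rw [h2]
      exact div_le_div_of_nonneg_left hA0.le (by linarith) h1
    set c : ℝ := A / 128 with hc
    have hc0 : 0 < c := by positivity
    have hstep1 : (P : ℝ) ^ (1 - g) ≤ 2 * z * (N : ℝ) ^ (1 - 2 * c / Y ^ 3) := by
      calc (P : ℝ) ^ (1 - g) ≤ (2 * z * N : ℝ) ^ (1 - g) :=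
            Real.rpow_le_rpow hP0 (by linarith) (by linarith)
        _ = (2 * z : ℝ) ^ (1 - g) * (N : ℝ) ^ (1 - g) :=
            Real.mul_rpow (by positivity) hN0r.le
        _ ≤ (2 * z : ℝ) ^ (1 : ℝ) * (N : ℝ) ^ (1 - 2 * c / Y ^ 3) := by
            apply mul_le_mul
            · exact Real.rpow_le_rpow_of_exponent_le (by linarith) (by linarith)
            · exact Real.rpow_le_rpow_of_exponent_le hN1r (by linarith)
            · positivity
            · positivity
        _ = 2 * z * (N : ℝ) ^ (1 - 2 * c / Y ^ 3) := by rw [Real.rpow_one]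
    have hsplit : (N : ℝ) ^ (1 - 2 * c / Y ^ 3) =
        (N : ℝ) ^ (-(c / Y ^ 3)) * (N : ℝ) ^ (1 - c / Y ^ 3) := by
      rw [← Real.rpow_add hN0r]
      congr 1; ring
    have hbig : 8192 * X ^ 2 ≤ (N : ℝ) ^ (c / Y ^ 3) := by
      rw [hNX, ← Real.exp_mul]
      have h1 : X * (c / Y ^ 3) = c * Real.exp Y / Y ^ 3 := by rw [hXY]; ring
      have h2 : 2 * Y + 10 ≤ c * Real.exp Y / Y ^ 3 := by
        rw [le_div_iff₀ (by positivity)]
        have : (2 * Y + 10) * Y ^ 3 ≤ 3 * Y ^ 4 := by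
          have : (2 * Y + 10) ≤ 3 * Y := by linarith
          calc (2 * Y + 10) * Y ^ 3 ≤ (3 * Y) * Y ^ 3 :=
                mul_le_mul_of_nonneg_right this (by positivity)
            _ = 3 * Y ^ 4 := by ring
        linarith
      rw [h1]
      calc 8192 * X ^ 2 ≤ Real.exp 10 * Real.exp (2 * Y) := by
            have h3 : (8192 : ℝ) ≤ Real.exp 10 := by
              have : (8192 : ℝ) = Real.exp (13 * Real.log 2) := by
                rw [mul_comm, Real.exp_mul, Real.exp_log (by norm_num)]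
                norm_num
              rw [this]
              exact Real.exp_le_exp.2 (by linarith)
            have h4 : X ^ 2 = Real.exp (2 * Y) := by
              rw [hXY, two_mul, Real.exp_add]; ring
            rw [h4]
            exact mul_le_mul_of_nonneg_right h3 (Real.exp_pos _).le
        _ = Real.exp (2 * Y + 10) := by rw [← Real.exp_add]; ring_nf
        _ ≤ _ := Real.exp_le_exp.2 h2
    calc 256 * ℓ * (P : ℝ) ^ (1 - g)
        ≤ 256 * (4 * X) * (2 * (4 * X) * (N : ℝ) ^ (1 - 2 * c / Y ^ 3)) := by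
          apply mul_le_mul
          · linarith
          · refine hstep1.trans ?_
            apply mul_le_mul_of_nonneg_right _ (by positivity)
            linarith
          · positivity
          · positivity
      _ = (8192 * X ^ 2 * (N : ℝ) ^ (-(c / Y ^ 3))) * (N : ℝ) ^ (1 - c / Y ^ 3) := by
          rw [hsplit]; ring
      _ ≤ ((N : ℝ) ^ (c / Y ^ 3) * (N : ℝ) ^ (-(c / Y ^ 3))) * (N : ℝ) ^ (1 - c / Y ^ 3) := by
          apply mul_le_mul_of_nonneg_right _ (by positivity)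
          exact mul_le_mul_of_nonneg_right hbig (by positivity)
      _ = (N : ℝ) ^ (1 - c / Y ^ 3) := by
          rw [← Real.rpow_add hN0r, add_neg_cancel, Real.rpow_zero, one_mul]

end Pool.Agent.W324.TN.Num
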